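import Pool.Agent.X205.CE.Fail
import Pool.Agent.X205.CE.Sum

set_option autoImplicit false

/-!
Problem MP_ce7f50_an, Q2 (negative answer, in the strong form: for every `p ∈ (1,∞)`), and Q1
reduced to the single exponent `p = 1`.

For every `1 < p < ∞` the Lipschitz-free space `F(ℓ_p)` is not linearly isomorphic to the
`ℓ_1`-sum of the spaces `F(ℓ_p^n)`, `n ≥ 1`.  More generally it is not isomorphic to a complemented
subspace of the `ℓ_1`-sum of the Lipschitz-free spaces of any sequence of finite-dimensional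
normed spaces.
-/

namespace Pool.Agent.Results.MP_ce7f50_an.NotLOneSum

open Pool.Agent.X205.CE
open Pool.Agent.TH326.Free (IsFree)
open scoped ENNReal NNReal

/-- The best Lipschitz constant of a map into a normed space. -/
noncomputable def lipConst {M Z : Type} [MetricSpace M] [NormedAddCommGroup Z] (f : M → Z) : ℝ :=
  sInf {K : ℝ | 0 ≤ K ∧ ∀ x y, ‖f x - f y‖ ≤ K * dist x y}

/-- `F` together with `δ : M → F` is the Lipschitz-free space of the metric space `M` with base
point `o`: `δ` is a base point preserving isometric embedding, and for every Banach space `Z` and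
every Lipschitz map `f : M → Z` with `f o = 0` there is a unique bounded linear `T : F → Z` with
`T ∘ δ = f`, and it satisfies `‖T‖ = ‖f‖_Lip`. -/
structure IsLipschitzFree {M : Type} [MetricSpace M] (o : M) {F : Type} [NormedAddCommGroup F]
    [NormedSpace ℝ F] (δ : M → F) : Prop where
  base : δ o = 0
  isom : Isometry δ
  univ : ∀ (Z : Type) [NormedAddCommGroup Z] [NormedSpace ℝ Z] [CompleteSpace Z] (f : M → Z),
    f o = 0 → (∃ K : ℝ≥0, LipschitzWith K f) →
      ∃ T : F →L[ℝ] Z, (∀ x, T (δ x) = f x) ∧ ‖T‖ = lipConst f ∧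
        ∀ T' : F →L[ℝ] Z, (∀ x, T' (δ x) = f x) → T' = T

theorem lipConst_le {M Z : Type} [MetricSpace M] [NormedAddCommGroup Z] (f : M → Z) {K : ℝ}
    (hK : 0 ≤ K) (h : ∀ x y, ‖f x - f y‖ ≤ K * dist x y) : lipConst f ≤ K :=
  csInf_le ⟨0, fun _ hL => hL.1⟩ ⟨hK, h⟩

theorem IsLipschitzFree.isFree {M : Type} [MetricSpace M] {o : M} {F : Type}
    [NormedAddCommGroup F] [NormedSpace ℝ F] {δ : M → F} (h : IsLipschitzFree o δ) :
    IsFree o δ where
  base := h.base
  lip x y := by rw [← dist_eq_norm, h.isom.dist_eq]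
  dense := by
    intro z
    by_contra hz
    set V : Submodule ℝ F := Submodule.span ℝ (Set.range δ) with hV
    obtain ⟨f, u, h1, h2⟩ := geometric_hahn_banach_closed_point
      (V.convex.closure) isClosed_closure hz
    have h3 : ∀ v ∈ V, f v = 0 := by
      intro v hv
      by_contra hne
      have h4 := h1 (((|u| + 1) / f v) • v) (subset_closure (V.smul_mem ((|u| + 1) / f v) hv))
      rw [map_smul, smul_eq_mul, div_mul_cancel₀ _ hne] at h4
      have := le_abs_self u
      linarith
    have h4 : 0 < u := by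
      have := h1 0 (subset_closure V.zero_mem)
      rwa [map_zero] at this
    obtain ⟨T, -, -, t3⟩ := h.univ ℝ (fun _ => (0 : ℝ)) rfl ⟨0, LipschitzWith.const _⟩
    have h5 : f = T := t3 f fun x => h3 _ (Submodule.subset_span ⟨x, rfl⟩)
    have h6 : (0 : F →L[ℝ] ℝ) = T := t3 0 fun x => rfl
    rw [h5, ← h6] at h2
    rw [zero_apply] at h2
    linarith
  ext K f hK hf hf0 := by
    obtain ⟨T, h1, h2, -⟩ := h.univ ℝ f hf0 ⟨⟨K, hK⟩, LipschitzWith.of_dist_le_mul fun x y => by
      rw [Real.dist_eq]
      exact hf x y⟩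
    exact ⟨T, h2.trans_le (lipConst_le f hK hf), h1⟩

theorem isLipschitzFree_of_isFree {M : Type} [MetricSpace M] {o : M} {F : Type}
    [NormedAddCommGroup F] [NormedSpace ℝ F] {δ : M → F} (h : IsFree o δ) :
    IsLipschitzFree o δ where
  base := h.base
  isom := by
    refine Isometry.of_dist_eq fun x y => le_antisymm ?_ ?_
    · rw [dist_eq_norm]
      exact h.lip x y
    · obtain ⟨φ, h1, h2⟩ := h.ext 1 (fun z => dist z y - dist o y) zero_le_one (fun a b => by
        rw [one_mul, sub_sub_sub_cancel_right]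
        exact abs_dist_sub_le a b y) (sub_self _)
      have h3 : φ (δ x - δ y) = dist x y := by
        rw [map_sub, h2, h2, dist_self]
        ring
      rw [dist_eq_norm, ← h3]
      exact (le_abs_self _).trans ((φ.le_opNorm _).trans (by
        calc ‖φ‖ * ‖δ x - δ y‖ ≤ 1 * ‖δ x - δ y‖ := mul_le_mul_of_nonneg_right h1 (norm_nonneg _)
          _ = ‖δ x - δ y‖ := one_mul _))
  univ Z _ _ _ f hf0 hf := by
    obtain ⟨K, hK⟩ := hf
    have hne : {K : ℝ | 0 ≤ K ∧ ∀ x y, ‖f x - f y‖ ≤ K * dist x y}.Nonempty :=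
      ⟨K, K.2, fun x y => by
        have := hK.dist_le_mul x y
        rwa [dist_eq_norm] at this⟩
    obtain ⟨T, h1, -⟩ := h.lift f K K.2 (fun x y => by
      have := hK.dist_le_mul x y
      rwa [dist_eq_norm] at this) hf0
    refine ⟨T, h1, le_antisymm ?_ ?_, fun T' h' => h.ext_map fun x => by rw [h', h1]⟩
    · refine le_csInf hne fun L hL => ?_
      obtain ⟨T', h1', h2'⟩ := h.lift f L hL.1 hL.2 hf0
      have : T = T' := h.ext_map fun x => by rw [h1', h1]
      rw [this]
      exact h2'
    · refine lipConst_le f (norm_nonneg T) fun x y => ?_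
      rw [← h1, ← h1, ← map_sub]
      exact (T.le_opNorm _).trans (mul_le_mul_of_nonneg_left (h.lip x y) (norm_nonneg T))

/-- A model of the Lipschitz-free space of `M` with base point `o`: a Banach space `F` and a map
`δ : M → F` with the universal property. -/
structure FreeSpace (M : Type) [MetricSpace M] (o : M) where
  F : Type
  [group : NormedAddCommGroup F]
  [space : NormedSpace ℝ F]
  [complete : CompleteSpace F]
  δ : M → F
  isFree : IsLipschitzFree o δ

attribute [instance] FreeSpace.group FreeSpace.space FreeSpace.complete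

/-- the Banach space `ℓ_p` -/
abbrev Ell (p : ℝ≥0∞) : Type := lp (fun _ : ℕ => ℝ) p

/-- the space `ℝ^n` with the `p`-norm -/
abbrev EllFin (p : ℝ≥0∞) (n : ℕ) : Type := PiLp p (fun _ : Fin n => ℝ)

/-- the `ℓ_1`-sum of a sequence of normed spaces -/
abbrev Sum1 (G : ℕ → Type) [∀ n, NormedAddCommGroup (G n)] : Type := lp G 1

/-- linear isomorphism: a bounded linear bijection with bounded inverse exists -/
def Isomorphic (X Y : Type) [NormedAddCommGroup X] [NormedSpace ℝ X] [NormedAddCommGroup Y]
    [NormedSpace ℝ Y] : Prop := Nonempty (X ≃L[ℝ] Y)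

/-- `X` is isomorphic to a complemented subspace of `Y`: the identity of `X` factors through `Y` -/
def ComplementedIn (X Y : Type) [NormedAddCommGroup X] [NormedSpace ℝ X] [NormedAddCommGroup Y]
    [NormedSpace ℝ Y] : Prop := ∃ (S : X →L[ℝ] Y) (R : Y →L[ℝ] X), ∀ v, R (S v) = v

/-- The Lipschitz-free space of `ℓ_p` is not linearly isomorphic to the `ℓ_1`-sum of the
Lipschitz-free spaces of `ℓ_p^n`, `n = 1, 2, …` (for all models of the free spaces). -/
def NotSumOfPieces (p : ℝ≥0∞) [Fact (1 ≤ p)] : Prop :=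
  ∀ (A : FreeSpace (Ell p) 0) (B : ∀ n : ℕ, FreeSpace (EllFin p (n + 1)) 0),
    ¬ Isomorphic A.F (Sum1 fun n => (B n).F)

/-- The Lipschitz-free space of `ℓ_p` is not isomorphic to a complemented subspace of the
`ℓ_1`-sum of the Lipschitz-free spaces of a sequence of finite-dimensional normed spaces. -/
def NotComplementedInSums (p : ℝ≥0∞) [Fact (1 ≤ p)] : Prop :=
  ∀ (E : ℕ → Type) [∀ n, NormedAddCommGroup (E n)] [∀ n, NormedSpace ℝ (E n)]
    [∀ n, FiniteDimensional ℝ (E n)] (A : FreeSpace (Ell p) 0) (B : ∀ n : ℕ, FreeSpace (E n) 0),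
    ¬ ComplementedIn A.F (Sum1 fun n => (B n).F)

/-- Lipschitz-free spaces exist; and for `1 < p < ∞` the Lipschitz-free space of `ℓ_p` is not
linearly isomorphic to the `ℓ_1`-sum of the Lipschitz-free spaces of `ℓ_p^n`, `n = 1, 2, …`; it is
not even isomorphic to a complemented subspace of the `ℓ_1`-sum of the Lipschitz-free spaces of a
sequence of finite-dimensional normed spaces. -/
theorem result : (∀ (M : Type) [MetricSpace M] (o : M), Nonempty (FreeSpace M o)) ∧
    ∀ (p : ℝ≥0∞) [Fact (1 ≤ p)], 1 < p → p < ⊤ → NotSumOfPieces p ∧ NotComplementedInSums p := by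
  have main : ∀ (p : ℝ≥0∞) [Fact (1 ≤ p)], 1 < p → p < ⊤ → NotComplementedInSums p := by
    intro p _ hp hp' E _ _ _ A B
    rintro ⟨S, R, hRS⟩
    exact free_lp_not_dps hp hp' A.isFree.isFree
      ((DPS.lp_one fun n => free_findim_dps (B n).isFree.isFree).of_factor S R hRS)
  refine ⟨fun M _ o => ?_, fun p _ hp hp' => ⟨?_, main p hp hp'⟩⟩
  · obtain ⟨F, i1, i2, i3, δ, h⟩ := exists_isFree M o
    exact ⟨⟨F, δ, isLipschitzFree_of_isFree h⟩⟩
  · rintro A B ⟨T⟩
    exact main p hp hp' (fun n => EllFin p (n + 1)) A B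
      ⟨T.toContinuousLinearMap, T.symm.toContinuousLinearMap, fun v => T.symm_apply_apply v⟩

end Pool.Agent.Results.MP_ce7f50_an.NotLOneSum
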